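import Pool.Agent.IQP70.QMain

/-!
# Public-key encryption by quantum algorithms with imperfect correctness

The definitions are in `Pool.Agent.PKE70.Defs` (classical adaptive oracle algorithms),
`Pool.Agent.QPKE99.Defs` (oracle gate, circuits) and `Pool.Agent.IQP70.QDefs` (schemes with quantum
ciphertexts).
-/

set_option autoImplicit false

open scoped BigOperators

namespace Pool.Agent.Results.MP_5f4f03_lc.QuantumPKE

open Pool.Agent.PKE70 Pool.Agent.QPKE99 Pool.Agent.IQP70

/-- Let key generation, encryption and decryption be quantum circuits with `q` oracle gates each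
for a function `f : D → R`; the keys are classical and the ciphertexts are quantum. Suppose that
for every public key `pk` the decryption of an encryption of a random bit is correct with
probability at least `δ pk`, for every oracle `f` and every secret key `sk` such that key
generation with oracle `f` can output `(pk, sk)`. Then there is an adversary that is given `pk`,
makes at most `80000 q ^ 10 / η ^ 4` classical queries to `f`, then runs one circuit with `q`
oracle gates on the ciphertext, and finds the encrypted bit with probability at least `δ pk - η`,
for every oracle `f` and every `pk` that key generation with oracle `f` can output. -/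
theorem result {D R PK SK WG V C W : Type} [Fintype D] [DecidableEq D] [AddCommGroup R]
    [Fintype R] [Fintype WG] [Fintype V] [Fintype C] [Fintype W] {q : ℕ} (hq : 1 ≤ q)
    (S : QScheme D R PK SK WG V C W q) (δ : PK → ℝ) {η : ℝ} (hη : 0 < η) (hη1 : η ≤ 1)
    (h : ∀ f pk sk, S.gen.prob f (pk, sk) ≠ 0 → δ pk ≤ S.keyProb f pk sk) :
    ∃ (m : ℕ) (A : PK → Fin (m + 1) → QAlg D R (Circuit D R (C × W) Bool q)),
      (∀ pk ω f, ((A pk ω).cost f : ℝ) ≤ 80000 * q ^ 10 / η ^ 4) ∧
      ∀ f pk sk, S.gen.prob f (pk, sk) ≠ 0 → δ pk - η ≤ S.advProb A f pk :=
  mainQ hq S δ hη hη1 h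

end Pool.Agent.Results.MP_5f4f03_lc.QuantumPKE
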